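import Pool.Agent.EDX.Stmts2
import Pool.Agent.Helper45_EDX.FUL

/-!
# Squad EDX, row MDC (helper10)
-/

set_option autoImplicit false

namespace Pool.Agent.EDX.H10

open Polynomial Finset Pool.Agent.EDG Pool.Agent.EDX Module
open Pool.Agent.EDX.H45

/-- Row MDC. -/
theorem mdc : MdcStmt := by
  classical
  intro n g hc P φ hH θ₀ hθ₀ i₀ hφ
  obtain ⟨ω, hω⟩ : ∃ ω : FF, ω = θ₀ ^ (2 ^ (i₀ : ℕ)) := ⟨_, rfl⟩
  have hωm : ω ∈ rts g := by rw [hω]; exact pow_mem hc hθ₀ i₀
  have hDpos : 0 < g.natDegree := hc.natDegree_pos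
  have hdeg : (Lg g ω).natDegree < g.natDegree := by
    have h1 : (Lg g ω).degree = ((rts g).card - 1 : ℕ) :=
      Lagrange.degree_basis (v := id) (fun a _ b _ h => h) hωm
    rw [natDegree_eq_of_degree_eq_some h1, card_rts hc]
    omega
  have key : ∑ θ ∈ rts g, ∑ i : Fin n, C (P i θ) * Lg g θ *
      (φ (θ ^ (2 ^ (i : ℕ))) * C ((Lg g ω).eval (θ ^ (2 ^ (i : ℕ))))) = 0 := by
    have h1 : ∑ j ∈ range g.natDegree, C ((Lg g ω).coeff j) *
        (∑ θ ∈ rts g, ∑ i : Fin n, C (P i θ) * Lg g θ *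
          (φ (θ ^ (2 ^ (i : ℕ))) * C (θ ^ (2 ^ (i : ℕ) * j)))) = 0 :=
      Finset.sum_eq_zero fun j hj => by rw [hH j (Finset.mem_range.1 hj), mul_zero]
    rw [← h1]
    simp_rw [Finset.mul_sum]
    rw [Finset.sum_comm (s := range g.natDegree) (t := rts g)]
    refine Finset.sum_congr rfl fun θ _ => ?_
    rw [Finset.sum_comm (s := range g.natDegree)]
    refine Finset.sum_congr rfl fun i _ => ?_
    rw [eval_eq_sum_range' hdeg, map_sum, Finset.mul_sum, Finset.mul_sum]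
    refine Finset.sum_congr rfl fun j _ => ?_
    rw [map_mul, pow_mul]
    ring
  have hW : φ ω * (∑ θ ∈ rts g, ∑ i : Fin n,
      if θ ^ (2 ^ (i : ℕ)) = ω then C (P i θ) * Lg g θ else 0) = 0 := by
    refine Eq.trans ?_ key
    rw [Finset.mul_sum]
    refine Finset.sum_congr rfl fun θ hθ => ?_
    rw [Finset.mul_sum]
    refine Finset.sum_congr rfl fun i _ => ?_
    by_cases h : θ ^ (2 ^ (i : ℕ)) = ω
    · rw [if_pos h, h, Lg_eval_self hωm, map_one, mul_one]
      ring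
    · rw [if_neg h, Lg_eval_ne (pow_mem hc hθ i) (Ne.symm h), map_zero, mul_zero, mul_zero,
        mul_zero]
  have hφ' : φ ω ≠ 0 := by rw [hω]; exact hφ
  have hW0 := (mul_eq_zero.1 hW).resolve_left hφ'
  have hE := congrArg (fun p : FF[X] => p.eval θ₀) hW0
  simp only [eval_zero] at hE
  rw [eval_finsetSum, Finset.sum_eq_single_of_mem θ₀ hθ₀, eval_finsetSum,
    Finset.sum_eq_single_of_mem i₀ (Finset.mem_univ _)] at hE
  · rw [if_pos hω.symm, eval_mul, eval_C, Lg_eval_self hθ₀, mul_one] at hE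
    exact hE
  · intro j _ hj
    rw [if_neg, eval_zero]
    rw [hω]
    exact pow_ne' hc hθ₀ hj
  · intro θ hθ hne
    rw [eval_finsetSum]
    refine Finset.sum_eq_zero fun i _ => ?_
    split_ifs
    · rw [eval_mul, Lg_eval_ne hθ₀ hne, mul_zero]
    · rw [eval_zero]

end Pool.Agent.EDX.H10
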